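import Pool.Agent.H525R3.ZT.Ram
import Pool.Agent.H278R3.ZT.Layer
import Pool.Agent.H623R3.ZT.PlacesOver

/-! The ramified places in a `ℤ_p`-tower: form used in `TaskG`. -/

set_option autoImplicit false
set_option linter.all false

open Module

namespace Pool.Agent.H525R3.ZT.Ram

open Pool.Agent.H278R3.ZT Pool.Agent.H623R3.ZT

variable {p : ℕ} [hp : Fact p.Prime] {k F E : Type} [Field k] [Field F] [Algebra k F] [Field E]
  [Algebra F E] [Algebra k E] [IsScalarTower k F E]

theorem layer_le (Φ : (E ≃ₐ[F] E) ≃* Multiplicative ℤ_[p]) [IsGalois F E]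
    (K L : IntermediateField F E) {m n : ℕ} (hmn : m ≤ n) (hK : finrank F K = p ^ m)
    (hL : finrank F L = p ^ n) : K ≤ L := by
  have h1 : L.fixingSubgroup ≤ K.fixingSubgroup := by
    intro s hs
    rw [mem_layer_fixingSubgroup Φ L n hL] at hs
    rw [mem_layer_fixingSubgroup Φ K m hK]
    exact (pow_dvd_pow _ hmn).trans hs
  have h2 := IntermediateField.fixedField_antitone (F := F) (E := E) h1
  rwa [InfiniteGalois.fixedField_fixingSubgroup, InfiniteGalois.fixedField_fixingSubgroup] at h2

/-- total ramification, for all ramified places at once -/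
theorem ram_layers [Finite k] [CharP k p] (h : H707R3.IsZpTower k F E p) :
    ∃ N : ℕ, ∀ m n : ℕ, N ≤ m → m ≤ n → ∀ K L : IntermediateField F E, finrank F K = p ^ m →
      finrank F L = p ^ n → ∀ v : H707R3.Place k F, ¬ v.IsUnramified E →
        ∃ e : placesOver K v ≃ placesOver L v, ∀ w, (e w).1.deg = w.1.deg := by
  obtain ⟨Φ⟩ := h.group
  have hgal := h.galois
  obtain ⟨n0, hn0⟩ := ram_bij h Φ
  refine ⟨n0, fun m n hm hmn K L hK hL v hv => ?_⟩
  have hKL : K ≤ L := layer_le Φ.toMulEquiv K L hmn hK hL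
  have hfK := layer_finite K m hK
  have hfL := layer_finite L n hL
  obtain ⟨e, he⟩ := hn0 K L hKL (by
    intro τ hτ
    have h1 : τ ∈ K.fixingSubgroup := by
      rw [IntermediateField.mem_fixingSubgroup_iff]
      exact hτ
    rw [mem_layer_fixingSubgroup Φ.toMulEquiv K m hK] at h1
    exact (pow_dvd_pow _ hm).trans h1) ⟨n - m, by rw [hK, hL, ← pow_add]; congr 1; omega⟩
  have hover : ∀ x : {x : H707R3.Place k K // RamP x}, ((e x).1.ring.comap (algebraMap F L)) =
      x.1.ring.comap (algebraMap F K) := by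
    intro x
    rw [← (he x).2]
    rfl
  let f : placesOver K v → placesOver L v := fun w =>
    ⟨(e ⟨w.1, v, hv, w.2⟩).1, by
      change (e ⟨w.1, v, hv, w.2⟩).1.ring.comap (algebraMap F L) = v.ring
      rw [hover]
      exact w.2⟩
  have hf : Function.Bijective f := by
    constructor
    · intro w1 w2 h12
      have h1 : (e ⟨w1.1, v, hv, w1.2⟩).1 = (e ⟨w2.1, v, hv, w2.2⟩).1 :=
        congrArg (fun z : placesOver L v => z.1) h12
      have h2 := e.injective (Subtype.ext h1)
      have h3 : w1.1 = w2.1 :=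
        congrArg (fun z : {x : H707R3.Place k K // RamP x} => z.1) h2
      exact Subtype.ext h3
    · intro y
      obtain ⟨x, hx⟩ := e.surjective ⟨y.1, v, hv, y.2⟩
      have h1 := hover x
      rw [hx] at h1
      have hxv : x.1.ring.comap (algebraMap F K) = v.ring := by
        rw [← h1]; exact y.2
      refine ⟨⟨x.1, hxv⟩, ?_⟩
      apply Subtype.ext
      change (e ⟨x.1, v, hv, hxv⟩).1 = y.1
      have h2 : (⟨x.1, v, hv, hxv⟩ : {x : H707R3.Place k K // RamP x}) = x := Subtype.ext rfl
      rw [h2, hx]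
  exact ⟨Equiv.ofBijective f hf, fun w => (he _).1⟩

end Pool.Agent.H525R3.ZT.Ram
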